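import Mathlib
import Pool.Agent.Y757.GM.Stm

/-! Euler factors of the geometric means: uniform bound. -/

set_option autoImplicit false
set_option maxHeartbeats 400000

namespace Pool.Agent.Y784.GM

open MeasureTheory Set Filter Topology Pool.Agent.Y757.LS Pool.Agent.Y757.EM Pool.Agent.Y757.GM

noncomputable section

/-! ### Real exponentials -/

lemma exp2 (x : ℝ) : |Real.exp x - 1 - x| ≤ |x| ^ 2 * Real.exp |x| := by
  have h := Complex.norm_exp_sub_sum_le_norm_mul_exp (x : ℂ) 2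
  rw [Finset.sum_range_succ, Finset.sum_range_succ, Finset.sum_range_zero] at h
  have e : Complex.exp (x : ℂ) - (0 + (x : ℂ) ^ 0 / ((0 : ℕ).factorial : ℂ) +
      (x : ℂ) ^ 1 / ((1 : ℕ).factorial : ℂ)) = ((Real.exp x - 1 - x : ℝ) : ℂ) := by
    push_cast
    simp
    ring
  rw [e, Complex.norm_real, Complex.norm_real, Real.norm_eq_abs, Real.norm_eq_abs] at h
  exact h

lemma exp3 (x : ℝ) : |Real.exp x - 1 - x - x ^ 2 / 2| ≤ |x| ^ 3 * Real.exp |x| := by
  have h := Complex.norm_exp_sub_sum_le_norm_mul_exp (x : ℂ) 3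
  rw [Finset.sum_range_succ, Finset.sum_range_succ, Finset.sum_range_succ,
    Finset.sum_range_zero] at h
  have e : Complex.exp (x : ℂ) - (0 + (x : ℂ) ^ 0 / ((0 : ℕ).factorial : ℂ) +
      (x : ℂ) ^ 1 / ((1 : ℕ).factorial : ℂ) + (x : ℂ) ^ 2 / ((2 : ℕ).factorial : ℂ)) =
      ((Real.exp x - 1 - x - x ^ 2 / 2 : ℝ) : ℂ) := by
    push_cast
    simp
    ring
  rw [e, Complex.norm_real, Complex.norm_real, Real.norm_eq_abs, Real.norm_eq_abs] at h
  exact h

/-! ### The functions `ps` -/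

lemma ps_sum {p : ℕ} (hp : 2 ≤ p) {s : ℝ} (hs : 0 ≤ s) (θ : ℝ) :
    HasSum (fun m : ℕ => rp p s ^ (m + 1) / (m + 1) * Real.cos ((m + 1) * (2 * Real.pi * θ)))
      (ps p s θ) := by
  have h := psi_hasSum hp hs (θ * (2 * Real.pi / Real.log p))
  rw [← ps_eq_psi hp] at h
  have hl : Real.log p ≠ 0 := by
    have := log_p_pos hp
    linarith
  have e : θ * (2 * Real.pi / Real.log p) * Real.log p = 2 * Real.pi * θ := by
    field_simp
  rw [e] at h
  exact h

lemma ps_first {p : ℕ} (hp : 2 ≤ p) {s : ℝ} (hs : 0 ≤ s) (θ : ℝ) :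
    |ps p s θ - rp p s * Real.cos (2 * Real.pi * θ)| ≤ 2 * rp p s ^ 2 := by
  have hr := rp_le' hp hs
  have hr0 := rp_pos hp s
  have h1 := (hasSum_nat_add_iff' 1).2 (ps_sum hp hs θ)
  simp only [Finset.range_one, Finset.sum_singleton, Nat.cast_zero, zero_add, pow_one, div_one,
    one_mul] at h1
  have h2 : HasSum (fun m : ℕ => rp p s ^ (m + 2) / 2) (rp p s ^ 2 / (1 - rp p s) / 2) := by
    have := ((hasSum_geometric_of_lt_one hr0.le (by linarith)).mul_left (rp p s ^ 2)).div_const 2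
    have e : (fun m : ℕ => rp p s ^ 2 * rp p s ^ m / 2) = fun m : ℕ => rp p s ^ (m + 2) / 2 := by
      funext m
      rw [← pow_add, add_comm 2 m]
    rw [e] at this
    simpa [div_eq_mul_inv] using this
  have h3 : rp p s ^ 2 / (1 - rp p s) / 2 ≤ 2 * rp p s ^ 2 := by
    rw [div_div, div_le_iff₀ (by nlinarith)]
    nlinarith [sq_nonneg (rp p s)]
  refine le_trans ?_ h3
  rw [← Real.norm_eq_abs, ← h1.tsum_eq]
  refine tsum_of_norm_bounded h2 fun m => ?_
  rw [norm_mul, Real.norm_eq_abs, Real.norm_eq_abs, abs_div, abs_of_pos (pow_pos hr0 _)]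
  have h4 := Real.abs_cos_le_one ((((m + 1 : ℕ) : ℝ) + 1) * (2 * Real.pi * θ))
  have hm : (0 : ℝ) ≤ m := by positivity
  have h5 : rp p s ^ (m + 1 + 1) / |((m + 1 : ℕ) : ℝ) + 1| ≤ rp p s ^ (m + 2) / 2 := by
    rw [abs_of_pos (by positivity)]
    have := (pow_pos hr0 (m + 2)).le
    gcongr
    push_cast
    linarith
  calc _ ≤ rp p s ^ (m + 2) / 2 * 1 := by
        gcongr
    _ = _ := mul_one _

lemma cos_int (m : ℕ) : ∫ θ in (0 : ℝ)..1, Real.cos ((m + 1) * (2 * Real.pi * θ)) = 0 := by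
  have hne : ((m : ℝ) + 1) * (2 * Real.pi) ≠ 0 := by
    have := Real.pi_pos
    positivity
  have h1 : ∀ θ ∈ uIcc (0 : ℝ) 1, HasDerivAt
      (fun θ => Real.sin (((m : ℝ) + 1) * (2 * Real.pi) * θ) / (((m : ℝ) + 1) * (2 * Real.pi)))
      (Real.cos ((m + 1) * (2 * Real.pi * θ))) θ := by
    intro θ _
    have h2 : HasDerivAt (fun θ => ((m : ℝ) + 1) * (2 * Real.pi) * θ)
        (((m : ℝ) + 1) * (2 * Real.pi)) θ := by
      simpa using (hasDerivAt_id θ).const_mul (((m : ℝ) + 1) * (2 * Real.pi))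
    have h3 := ((Real.hasDerivAt_sin (((m : ℝ) + 1) * (2 * Real.pi) * θ)).comp θ h2).div_const
      (((m : ℝ) + 1) * (2 * Real.pi))
    rw [mul_div_assoc, div_self hne, mul_one] at h3
    have e : ((m : ℝ) + 1) * (2 * Real.pi * θ) = ((m : ℝ) + 1) * (2 * Real.pi) * θ := by ring
    rw [e]
    exact h3
  rw [intervalIntegral.integral_eq_sub_of_hasDerivAt h1
    ((by fun_prop : Continuous fun θ : ℝ => Real.cos (((m : ℝ) + 1) * (2 * Real.pi * θ))).intervalIntegrable _ _)]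
  have e1 : ((m : ℝ) + 1) * (2 * Real.pi) * 1 = ((m + 1 : ℕ) : ℝ) * (2 * Real.pi) := by
    push_cast; ring
  have e2 : Real.sin (((m + 1 : ℕ) : ℝ) * (2 * Real.pi)) = 0 := by
    have := Real.sin_nat_mul_pi (2 * (m + 1))
    rw [← this]
    congr 1
    push_cast
    ring
  rw [e1, e2]
  simp

lemma ps_mean {p : ℕ} (hp : 2 ≤ p) {s : ℝ} (hs : 0 ≤ s) : ∫ θ in (0 : ℝ)..1, ps p s θ = 0 := by
  have hr := rp_le' hp hs
  have hr0 := rp_pos hp s
  obtain ⟨h1, h2⟩ := geom_bd hr0.le hr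
  have h3 := intervalIntegral.hasSum_integral_of_dominated_convergence (μ := volume)
    (a := 0) (b := 1)
    (F := fun (m : ℕ) (θ : ℝ) => rp p s ^ (m + 1) / (m + 1) *
      Real.cos ((m + 1) * (2 * Real.pi * θ))) (f := fun θ => ps p s θ)
    (fun m _ => rp p s ^ (m + 1)) (fun m => (by fun_prop : Continuous fun θ : ℝ =>
      rp p s ^ (m + 1) / ((m : ℝ) + 1) *
        Real.cos (((m : ℝ) + 1) * (2 * Real.pi * θ))).aestronglyMeasurable)
    (fun m => Eventually.of_forall fun θ _ => by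
      rw [norm_mul, Real.norm_eq_abs, Real.norm_eq_abs, abs_div, abs_of_pos (pow_pos hr0 _),
        abs_of_pos (by positivity : (0:ℝ) < m + 1)]
      have h4 := Real.abs_cos_le_one ((m + 1) * (2 * Real.pi * θ))
      have h5 : rp p s ^ (m + 1) / ((m : ℝ) + 1) ≤ rp p s ^ (m + 1) := by
        apply div_le_self (pow_pos hr0 _).le
        have : (0:ℝ) ≤ m := by positivity
        linarith
      have h6 := (pow_pos hr0 (m + 1)).le
      calc _ ≤ rp p s ^ (m + 1) * 1 := by gcongr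
        _ = _ := mul_one _)
    (Eventually.of_forall fun θ _ => h1.summable)
    (continuous_const.intervalIntegrable _ _)
    (Eventually.of_forall fun θ _ => ps_sum hp hs θ)
  have h4 : ∀ m : ℕ, ∫ θ in (0 : ℝ)..1, rp p s ^ (m + 1) / (m + 1) *
      Real.cos ((m + 1) * (2 * Real.pi * θ)) = 0 := by
    intro m
    rw [intervalIntegral.integral_const_mul, cos_int, mul_zero]
  simp only [h4] at h3
  exact h3.unique hasSum_zero

lemma rp_cont {p : ℕ} (hp : 2 ≤ p) : Continuous (rp p) := by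
  have h0 : (p : ℝ) ≠ 0 := by exact_mod_cast (by omega : p ≠ 0)
  have h := (Real.continuous_const_rpow h0).comp
    (by fun_prop : Continuous fun s : ℝ => -(1 / 2 + s))
  exact h

lemma rp_cont' {p : ℕ} (hp : 2 ≤ p) {X : Type} [TopologicalSpace X] {u : X → ℝ}
    (hu : Continuous u) : Continuous fun x => rp p (u x) := (rp_cont hp).comp hu

lemma ps_eq_rp (p : ℕ) (s θ : ℝ) : ps p s θ =
    -Real.log ‖1 - ((rp p s : ℝ) : ℂ) * Complex.exp (((-(2 * Real.pi * θ) : ℝ) : ℂ) * Complex.I)‖ :=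
  rfl

lemma ps_cont {p : ℕ} (hp : 2 ≤ p) {X : Type} [TopologicalSpace X] {u v : X → ℝ}
    (hu : Continuous u) (hv : Continuous v) : Continuous fun x => ps p |u x| (v x) := by
  have hr : Continuous fun x => rp p |u x| := rp_cont' hp hu.abs
  simp only [ps_eq_rp]
  refine (Continuous.log ?_ ?_).neg
  · fun_prop
  · intro q hq
    rw [norm_eq_zero, sub_eq_zero] at hq
    have h1 : ‖((rp p |u q| : ℝ) : ℂ) *
        Complex.exp (((-(2 * Real.pi * v q) : ℝ) : ℂ) * Complex.I)‖ = rp p |u q| := by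
      rw [norm_mul, Complex.norm_exp_ofReal_mul_I, mul_one, Complex.norm_real, Real.norm_eq_abs,
        abs_of_pos (rp_pos hp _)]
    rw [← hq, norm_one] at h1
    have := rp_le' hp (abs_nonneg (u q))
    linarith

/-! ### The averages -/

/-- the average over `[0, h]` -/
def Gm (p : ℕ) (h θ : ℝ) : ℝ := 1 / h * ∫ s in (0:ℝ)..h, ps p s θ

/-- the average of the first coefficient -/
def Aa (p : ℕ) (h : ℝ) : ℝ := 1 / h * ∫ s in (0:ℝ)..h, rp p s

lemma int_abs {p : ℕ} {h : ℝ} (hh : 0 < h) (θ : ℝ) :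
    ∫ s in (0:ℝ)..h, ps p s θ = ∫ s in (0:ℝ)..h, ps p |s| θ := by
  refine intervalIntegral.integral_congr fun s hs => ?_
  rw [uIcc_of_le hh.le] at hs
  simp only [abs_of_nonneg hs.1]

lemma ps_ii {p : ℕ} (hp : 2 ≤ p) {h : ℝ} (hh : 0 < h) (θ : ℝ) :
    IntervalIntegrable (fun s => ps p s θ) volume 0 h := by
  have h0 : Continuous fun s : ℝ => ps p |s| θ := ps_cont hp continuous_id continuous_const
  have h1 : IntervalIntegrable (fun s => ps p |s| θ) volume 0 h := h0.intervalIntegrable _ _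
  refine h1.congr fun s hs => ?_
  rw [uIoc_of_le hh.le] at hs
  simp only [abs_of_pos hs.1]

lemma Gm_cont {p : ℕ} (hp : 2 ≤ p) {h : ℝ} (hh : 0 < h) : Continuous (Gm p h) := by
  unfold Gm
  simp_rw [int_abs (p := p) hh]
  refine continuous_const.mul ?_
  have hc : Continuous (Function.uncurry fun (θ s : ℝ) => ps p |s| θ) :=
    ps_cont hp continuous_snd continuous_fst
  exact intervalIntegral.continuous_parametric_intervalIntegral_of_continuous' hc 0 h

lemma avg_le {g : ℝ → ℝ} {h C : ℝ} (hh : 0 < h) (hg : ∀ s ∈ Ioc 0 h, |g s| ≤ C) :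
    |1 / h * ∫ s in (0:ℝ)..h, g s| ≤ C := by
  have h1 : ‖∫ s in (0:ℝ)..h, g s‖ ≤ C * |h - 0| :=
    intervalIntegral.norm_integral_le_of_norm_le_const fun s hs => by
      rw [uIoc_of_le hh.le] at hs
      exact hg s hs
  rw [sub_zero, abs_of_pos hh, Real.norm_eq_abs] at h1
  rw [abs_mul, abs_of_pos (by positivity), div_mul_eq_mul_div, one_mul, div_le_iff₀ hh]
  exact h1

lemma Gm_bound {p : ℕ} (hp : 2 ≤ p) {h : ℝ} (hh : 0 < h) (θ : ℝ) : |Gm p h θ| ≤ 4 * rp p 0 :=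
  avg_le hh fun s hs => (ps_bound hp hs.1.le θ).trans (by linarith [rp_le hp hs.1.le])

lemma Aa_bound {p : ℕ} (hp : 2 ≤ p) {h : ℝ} (hh : 0 < h) : |Aa p h| ≤ rp p 0 :=
  avg_le hh fun s hs => by
    rw [abs_of_pos (rp_pos hp s)]
    exact rp_le hp hs.1.le

lemma Gm_first {p : ℕ} (hp : 2 ≤ p) {h : ℝ} (hh : 0 < h) (θ : ℝ) :
    |Gm p h θ - Aa p h * Real.cos (2 * Real.pi * θ)| ≤ 2 * rp p 0 ^ 2 := by
  have e : Gm p h θ - Aa p h * Real.cos (2 * Real.pi * θ) =
      1 / h * ∫ s in (0:ℝ)..h, (ps p s θ - rp p s * Real.cos (2 * Real.pi * θ)) := by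
    have i2 : IntervalIntegrable (fun s => rp p s * Real.cos (2 * Real.pi * θ)) volume 0 h :=
      ((rp_cont hp).mul continuous_const).intervalIntegrable _ _
    rw [intervalIntegral.integral_sub (ps_ii hp hh θ) i2, intervalIntegral.integral_mul_const]
    unfold Gm Aa
    ring
  rw [e]
  refine avg_le hh fun s hs => (ps_first hp hs.1.le θ).trans ?_
  have h1 := rp_le hp hs.1.le
  have h2 := rp_pos hp s
  gcongr

lemma Gm_mean {p : ℕ} (hp : 2 ≤ p) {h : ℝ} (hh : 0 < h) : ∫ θ in (0:ℝ)..1, Gm p h θ = 0 := by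
  unfold Gm
  rw [intervalIntegral.integral_const_mul]
  simp_rw [int_abs (p := p) hh]
  have hc : Continuous (Function.uncurry fun (θ s : ℝ) => ps p |s| θ) :=
    ps_cont hp continuous_snd continuous_fst
  rw [intervalIntegral_intervalIntegral_swap]
  · have h1 : ∀ s : ℝ, ∫ θ in (0:ℝ)..1, ps p |s| θ = 0 := fun s => ps_mean hp (abs_nonneg s)
    simp [h1]
  · have hK : IsCompact (uIcc (0:ℝ) 1 ×ˢ uIcc (0:ℝ) h) := isCompact_uIcc.prod isCompact_uIcc
    exact (hc.continuousOn.integrableOn_compact hK).mono_set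
      (prod_mono uIoc_subset_uIcc uIoc_subset_uIcc)

/-! ### The factor `Fp` -/

lemma cos_sq_int : ∫ θ in (0 : ℝ)..1, Real.cos (2 * Real.pi * θ) ^ 2 = 1 / 2 := by
  have h1 : ∀ θ : ℝ, Real.cos (2 * Real.pi * θ) ^ 2 =
      1 / 2 + 1 / 2 * Real.cos (((1 : ℕ) + 1) * (2 * Real.pi * θ)) := by
    intro θ
    rw [Real.cos_sq]
    push_cast
    ring_nf
  simp_rw [h1]
  rw [intervalIntegral.integral_add (continuous_const.intervalIntegrable _ _)
    ((by fun_prop : Continuous fun θ : ℝ => 1 / 2 * Real.cos ((((1 : ℕ) : ℝ) + 1) *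
      (2 * Real.pi * θ))).intervalIntegrable _ _), intervalIntegral.integral_const_mul, cos_int]
  simp

lemma Fp_est {k p : ℕ} (hk : 1 ≤ k) (hp : 2 ≤ p) {h : ℝ} (hh : 0 < h) :
    |Fp k p h - (1 + (k : ℝ) ^ 2 * Aa p h ^ 2)| ≤
      (16 * (k : ℝ) ^ 2 + (8 * (k : ℝ)) ^ 3 * Real.exp (8 * k)) * rp p 0 ^ 3 := by
  set r := rp p 0 with hr
  have hr0 : 0 < r := rp_pos hp 0
  have hr1 : r ≤ 3 / 4 := rp_zero_le hp
  set A := Aa p h with hA
  have hAb : |A| ≤ r := Aa_bound hp hh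
  have hk0 : (0 : ℝ) ≤ k := by positivity
  set f : ℝ → ℝ := fun θ => 2 * k * Gm p h θ with hf
  have hfc : Continuous f := continuous_const.mul (Gm_cont hp hh)
  have hF : Fp k p h = ∫ θ in (0:ℝ)..1, Real.exp (f θ) := by
    unfold Fp
    refine intervalIntegral.integral_congr fun θ _ => ?_
    simp only [hf]
    congr 1
    unfold Gm
    ring
  have hfb : ∀ θ, |f θ| ≤ 8 * k * r := by
    intro θ
    simp only [hf]
    rw [abs_mul, abs_of_nonneg (by positivity)]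
    have := Gm_bound hp hh θ
    calc 2 * (k : ℝ) * |Gm p h θ| ≤ 2 * k * (4 * r) := by gcongr
      _ = 8 * k * r := by ring
  have hf0 : ∫ θ in (0:ℝ)..1, f θ = 0 := by
    simp only [hf]
    rw [intervalIntegral.integral_const_mul, Gm_mean hp hh, mul_zero]
  have i1 : IntervalIntegrable (fun θ => Real.exp (f θ)) volume 0 1 :=
    (Real.continuous_exp.comp hfc).intervalIntegrable _ _
  have i2 : IntervalIntegrable f volume 0 1 := hfc.intervalIntegrable _ _
  have i3 : IntervalIntegrable (fun θ => f θ ^ 2 / 2) volume 0 1 :=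
    ((hfc.pow 2).div_const 2).intervalIntegrable _ _
  have i4 : IntervalIntegrable (fun _ : ℝ => (1 : ℝ)) volume 0 1 :=
    continuous_const.intervalIntegrable _ _
  -- the remainder of the exponential
  have h1 : |∫ θ in (0:ℝ)..1, (Real.exp (f θ) - 1 - f θ - f θ ^ 2 / 2)| ≤
      (8 * k) ^ 3 * Real.exp (8 * k) * r ^ 3 := by
    have := intervalIntegral.norm_integral_le_of_norm_le_const (a := 0) (b := 1)
      (C := (8 * k) ^ 3 * Real.exp (8 * k) * r ^ 3)
      (f := fun θ => Real.exp (f θ) - 1 - f θ - f θ ^ 2 / 2) fun θ _ => by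
        rw [Real.norm_eq_abs]
        refine (exp3 (f θ)).trans ?_
        have a1 := hfb θ
        have a2 : Real.exp |f θ| ≤ Real.exp (8 * k) := by
          apply Real.exp_le_exp.2
          refine a1.trans ?_
          nlinarith
        calc |f θ| ^ 3 * Real.exp |f θ| ≤ (8 * k * r) ^ 3 * Real.exp (8 * k) := by gcongr
          _ = (8 * k) ^ 3 * Real.exp (8 * k) * r ^ 3 := by ring
    rw [Real.norm_eq_abs] at this
    simpa using this
  have h2 : ∫ θ in (0:ℝ)..1, (Real.exp (f θ) - 1 - f θ - f θ ^ 2 / 2) =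
      Fp k p h - 1 - ∫ θ in (0:ℝ)..1, f θ ^ 2 / 2 := by
    rw [intervalIntegral.integral_sub ((i1.sub i4).sub i2) i3,
      intervalIntegral.integral_sub (i1.sub i4) i2, intervalIntegral.integral_sub i1 i4, hf0, ← hF]
    simp
  -- the quadratic term
  have h3 : |(∫ θ in (0:ℝ)..1, f θ ^ 2 / 2) - (k : ℝ) ^ 2 * A ^ 2| ≤ 16 * (k : ℝ) ^ 2 * r ^ 3 := by
    have i5 : IntervalIntegrable (fun θ => 2 * (k : ℝ) ^ 2 * A ^ 2 *
        Real.cos (2 * Real.pi * θ) ^ 2) volume 0 1 :=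
      (by fun_prop : Continuous fun θ : ℝ => 2 * (k : ℝ) ^ 2 * A ^ 2 *
        Real.cos (2 * Real.pi * θ) ^ 2).intervalIntegrable _ _
    have e : (∫ θ in (0:ℝ)..1, f θ ^ 2 / 2) - (k : ℝ) ^ 2 * A ^ 2 =
        ∫ θ in (0:ℝ)..1, (f θ ^ 2 / 2 - 2 * (k : ℝ) ^ 2 * A ^ 2 *
          Real.cos (2 * Real.pi * θ) ^ 2) := by
      rw [intervalIntegral.integral_sub i3 i5, intervalIntegral.integral_const_mul, cos_sq_int]
      ring
    rw [e]
    have := intervalIntegral.norm_integral_le_of_norm_le_const (a := 0) (b := 1)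
      (C := 16 * (k : ℝ) ^ 2 * r ^ 3)
      (f := fun θ => f θ ^ 2 / 2 - 2 * (k : ℝ) ^ 2 * A ^ 2 *
          Real.cos (2 * Real.pi * θ) ^ 2) fun θ _ => by
        rw [Real.norm_eq_abs]
        set g := Gm p h θ with hg
        set c := Real.cos (2 * Real.pi * θ) with hc
        have b1 : |g - A * c| ≤ 2 * r ^ 2 := Gm_first hp hh θ
        have b2 : |c| ≤ 1 := Real.abs_cos_le_one _
        have b3 : |g + A * c| ≤ 4 * r := by
          have b4 : g + A * c = (g - A * c) + 2 * (A * c) := by ring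
          rw [b4]
          refine (abs_add_le _ _).trans ?_
          have b5 : |2 * (A * c)| ≤ 2 * r := by
            rw [abs_mul, abs_mul, abs_of_pos (by norm_num : (0:ℝ) < 2)]
            have : |A| * |c| ≤ r * 1 := by gcongr
            linarith
          nlinarith
        have e2 : f θ ^ 2 / 2 - 2 * (k : ℝ) ^ 2 * A ^ 2 * c ^ 2 =
            2 * (k : ℝ) ^ 2 * ((g - A * c) * (g + A * c)) := by
          simp only [hf, ← hg]
          ring
        rw [e2, abs_mul, abs_of_nonneg (by positivity : (0:ℝ) ≤ 2 * (k : ℝ) ^ 2), abs_mul]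
        calc 2 * (k : ℝ) ^ 2 * (|g - A * c| * |g + A * c|) ≤
            2 * (k : ℝ) ^ 2 * ((2 * r ^ 2) * (4 * r)) := by gcongr
          _ = 16 * (k : ℝ) ^ 2 * r ^ 3 := by ring
    rw [Real.norm_eq_abs] at this
    simpa using this
  rw [h2] at h1
  have e3 : Fp k p h - (1 + (k : ℝ) ^ 2 * A ^ 2) = (Fp k p h - 1 - ∫ θ in (0:ℝ)..1, f θ ^ 2 / 2) +
      ((∫ θ in (0:ℝ)..1, f θ ^ 2 / 2) - (k : ℝ) ^ 2 * A ^ 2) := by ring
  rw [e3]
  refine (abs_add_le _ _).trans ?_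
  linarith

/-! ### The exponent `Gp` -/

lemma rp_mul {p : ℕ} (hp : 2 ≤ p) (x y : ℝ) : (p : ℝ) ^ (-(1 + x + y)) = rp p x * rp p y := by
  have h0 : (0 : ℝ) < p := by exact_mod_cast (by omega : 0 < p)
  unfold rp
  rw [← Real.rpow_add h0]
  congr 1
  ring

lemma neg_log_est {u : ℝ} (h0 : 0 ≤ u) (h1 : u ≤ 3 / 4) : |-Real.log (1 - u) - u| ≤ 4 * u ^ 2 := by
  have hpos : 0 < 1 - u := by linarith
  have a1 := Real.add_one_le_exp (-u)
  have a2 : u ≤ -Real.log (1 - u) := by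
    have := Real.log_le_sub_one_of_pos hpos
    linarith
  have a3 : -Real.log (1 - u) ≤ u / (1 - u) := by
    have h3 := Real.log_le_sub_one_of_pos (inv_pos.2 hpos)
    rw [Real.log_inv] at h3
    have : (1 - u)⁻¹ - 1 = u / (1 - u) := by field_simp; ring
    linarith
  have a4 : u / (1 - u) - u ≤ 4 * u ^ 2 := by
    have : u / (1 - u) - u = u ^ 2 / (1 - u) := by field_simp; ring
    rw [this, div_le_iff₀ hpos]
    nlinarith [sq_nonneg u]
  rw [abs_of_nonneg (by linarith)]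
  linarith

/-- a continuous extension -/
def gl (p : ℕ) (x y : ℝ) : ℝ := -Real.log (1 - rp p |x| * rp p |y|)

lemma rr_le {p : ℕ} (hp : 2 ≤ p) {x y : ℝ} (hx : 0 ≤ x) (hy : 0 ≤ y) :
    rp p x * rp p y ≤ rp p 0 ^ 2 := by
  have h1 := rp_le hp hx
  have h2 := rp_le hp hy
  have h3 := rp_pos hp x
  have h4 := rp_pos hp y
  have h5 := (rp_pos hp 0).le
  calc rp p x * rp p y ≤ rp p 0 * rp p 0 := by gcongr
    _ = rp p 0 ^ 2 := by ring

lemma gl_cont {p : ℕ} (hp : 2 ≤ p) : Continuous (Function.uncurry (gl p)) := by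
  have h1 : Continuous fun q : ℝ × ℝ => rp p |q.1| := rp_cont' hp continuous_fst.abs
  have h2 : Continuous fun q : ℝ × ℝ => rp p |q.2| := rp_cont' hp continuous_snd.abs
  have h0 : Continuous fun q : ℝ × ℝ => 1 - rp p |q.1| * rp p |q.2| :=
    continuous_const.sub (h1.mul h2)
  have hne : ∀ q : ℝ × ℝ, 1 - rp p |q.1| * rp p |q.2| ≠ 0 := by
    intro q
    have h3 := rr_le hp (abs_nonneg q.1) (abs_nonneg q.2)
    have h4 := rp_zero_le hp
    have h5 := rp_pos hp 0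
    have : rp p 0 ^ 2 < 1 := by nlinarith
    exact ne_of_gt (by linarith)
  have h6 : Continuous fun q : ℝ × ℝ => -Real.log (1 - rp p |q.1| * rp p |q.2|) :=
    (h0.log hne).neg
  exact h6

lemma Gp_eq {p : ℕ} (hp : 2 ≤ p) {h : ℝ} (hh : 0 < h) :
    Gp p h = 1 / h * ∫ x in (0:ℝ)..h, (1 / h * ∫ y in (0:ℝ)..h, gl p x y) := by
  unfold Gp
  rw [intervalIntegral.integral_const_mul]
  have e : ∫ x in (0:ℝ)..h, ∫ y in (0:ℝ)..h, -Real.log (1 - (p : ℝ) ^ (-(1 + x + y))) =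
      ∫ x in (0:ℝ)..h, ∫ y in (0:ℝ)..h, gl p x y := by
    refine intervalIntegral.integral_congr fun x hx => ?_
    rw [uIcc_of_le hh.le] at hx
    refine intervalIntegral.integral_congr fun y hy => ?_
    rw [uIcc_of_le hh.le] at hy
    simp only [gl]
    rw [rp_mul hp, abs_of_nonneg hx.1, abs_of_nonneg hy.1]
  rw [e]
  field_simp

lemma Gp_est {p : ℕ} (hp : 2 ≤ p) {h : ℝ} (hh : 0 < h) :
    |Gp p h - Aa p h ^ 2| ≤ 4 * rp p 0 ^ 4 := by
  have hc := gl_cont hp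
  have hin : Continuous fun x => ∫ y in (0:ℝ)..h, gl p x y :=
    intervalIntegral.continuous_parametric_intervalIntegral_of_continuous' hc 0 h
  have e : Gp p h - Aa p h ^ 2 = 1 / h * ∫ x in (0:ℝ)..h,
      (1 / h * ∫ y in (0:ℝ)..h, (gl p x y - rp p x * rp p y)) := by
    have e1 : ∀ x, (1 / h * ∫ y in (0:ℝ)..h, (gl p x y - rp p x * rp p y)) =
        (1 / h * ∫ y in (0:ℝ)..h, gl p x y) - rp p x * Aa p h := by
      intro x
      have c1 : Continuous fun y : ℝ => gl p x y :=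
        hc.comp (by fun_prop : Continuous fun y : ℝ => (x, y))
      have i1 : IntervalIntegrable (fun y : ℝ => gl p x y) volume 0 h := c1.intervalIntegrable _ _
      have i2 : IntervalIntegrable (fun y : ℝ => rp p x * rp p y) volume 0 h :=
        (continuous_const.mul (rp_cont hp)).intervalIntegrable _ _
      rw [intervalIntegral.integral_sub i1 i2, intervalIntegral.integral_const_mul]
      unfold Aa
      ring
    simp_rw [e1]
    have i3 : IntervalIntegrable (fun x : ℝ => 1 / h * ∫ y in (0:ℝ)..h, gl p x y) volume 0 h :=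
      (continuous_const.mul hin).intervalIntegrable _ _
    have i4 : IntervalIntegrable (fun x : ℝ => rp p x * Aa p h) volume 0 h :=
      ((rp_cont hp).mul continuous_const).intervalIntegrable _ _
    rw [intervalIntegral.integral_sub i3 i4,
      intervalIntegral.integral_mul_const, mul_sub, ← Gp_eq hp hh]
    congr 1
    unfold Aa
    ring
  rw [e]
  refine avg_le hh fun x hx => avg_le hh fun y hy => ?_
  have h1 := rr_le hp hx.1.le hy.1.le
  have h2 := rp_zero_le hp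
  have h3 := rp_pos hp 0
  have h4 : 0 < rp p x * rp p y := mul_pos (rp_pos hp x) (rp_pos hp y)
  unfold gl
  rw [abs_of_pos hx.1, abs_of_pos hy.1]
  refine (neg_log_est h4.le (by nlinarith)).trans ?_
  calc 4 * (rp p x * rp p y) ^ 2 ≤ 4 * (rp p 0 ^ 2) ^ 2 := by gcongr
    _ = 4 * rp p 0 ^ 4 := by ring

/-! ### The product -/

theorem t_FB : S_FB := by
  intro k hk
  set K : ℝ := (k : ℝ) with hK
  have hK1 : 1 ≤ K := by rw [hK]; exact_mod_cast hk
  set C₁ : ℝ := 16 * K ^ 2 + (8 * K) ^ 3 * Real.exp (8 * K) with hC1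
  set C₂ : ℝ := 4 * K ^ 2 + (5 * K ^ 2) ^ 2 * Real.exp (5 * K ^ 2) with hC2
  have hC1p : 0 ≤ C₁ := by positivity
  have hC2p : 0 ≤ C₂ := by positivity
  refine ⟨K ^ 4 + C₂ * (1 + K ^ 2) + C₁ * (1 + K ^ 2) + C₁ * C₂, fun p hpp h hh _ => ?_⟩
  have hp : 2 ≤ p := hpp.two_le
  set r := rp p 0 with hr
  have hr0 : 0 < r := rp_pos hp 0
  have hr1 : r ≤ 3 / 4 := rp_zero_le hp
  have hr3 : (p : ℝ) ^ (-(3 / 2) : ℝ) = r ^ 3 := by
    have h0 : (0 : ℝ) ≤ p := by positivity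
    rw [hr]
    unfold rp
    rw [← Real.rpow_natCast, ← Real.rpow_mul h0]
    norm_num
  rw [hr3]
  set A := Aa p h with hA
  have hAb : |A| ≤ r := Aa_bound hp hh
  have hA2 : A ^ 2 ≤ r ^ 2 := by
    rw [← sq_abs A]
    gcongr
  have hA20 : 0 ≤ A ^ 2 := sq_nonneg A
  -- α
  set α := Fp k p h - (1 + K ^ 2 * A ^ 2) with hα
  have hαb : |α| ≤ C₁ * r ^ 3 := Fp_est hk hp hh
  -- β
  have hG := Gp_est hp hh
  set G := Gp p h with hGd
  have hGb : |G| ≤ 5 * r ^ 2 := by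
    have e : G = (G - A ^ 2) + A ^ 2 := by ring
    rw [e]
    refine (abs_add_le _ _).trans ?_
    rw [abs_of_nonneg hA20]
    have : r ^ 4 ≤ r ^ 2 := by
      have : r ^ 4 = r ^ 2 * r ^ 2 := by ring
      rw [this]
      have h1 : r ^ 2 ≤ 1 := by nlinarith
      nlinarith [sq_nonneg r]
    linarith
  set β := Real.exp (-K ^ 2 * G) - (1 - K ^ 2 * A ^ 2) with hβ
  have hr43 : r ^ 4 ≤ r ^ 3 := by
    have : r ^ 4 = r ^ 3 * r := by ring
    rw [this]
    nlinarith [pow_pos hr0 3]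
  have hβb : |β| ≤ C₂ * r ^ 3 := by
    have h1 := exp2 (-K ^ 2 * G)
    have h2 : |-K ^ 2 * G| ≤ 5 * K ^ 2 * r ^ 2 := by
      rw [abs_mul, abs_neg, abs_of_nonneg (by positivity)]
      calc K ^ 2 * |G| ≤ K ^ 2 * (5 * r ^ 2) := by gcongr
        _ = 5 * K ^ 2 * r ^ 2 := by ring
    have h3 : Real.exp |-K ^ 2 * G| ≤ Real.exp (5 * K ^ 2) := by
      apply Real.exp_le_exp.2
      refine h2.trans ?_
      have : r ^ 2 ≤ 1 := by nlinarith
      have h4 : 0 ≤ 5 * K ^ 2 := by positivity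
      nlinarith
    have e : β = (Real.exp (-K ^ 2 * G) - 1 - (-K ^ 2 * G)) + -K ^ 2 * (G - A ^ 2) := by
      rw [hβ]; ring
    rw [e]
    refine (abs_add_le _ _).trans ?_
    have h5 : |-K ^ 2 * (G - A ^ 2)| ≤ K ^ 2 * (4 * r ^ 4) := by
      rw [abs_mul, abs_neg, abs_of_nonneg (by positivity : (0:ℝ) ≤ K ^ 2)]
      gcongr
    have h6 : |Real.exp (-K ^ 2 * G) - 1 - (-K ^ 2 * G)| ≤
        (5 * K ^ 2 * r ^ 2) ^ 2 * Real.exp (5 * K ^ 2) := by
      refine h1.trans ?_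
      gcongr
    calc _ ≤ (5 * K ^ 2 * r ^ 2) ^ 2 * Real.exp (5 * K ^ 2) + K ^ 2 * (4 * r ^ 4) :=
          add_le_add h6 h5
      _ = C₂ * r ^ 4 := by rw [hC2]; ring
      _ ≤ C₂ * r ^ 3 := by gcongr
  have e : Fp k p h * Real.exp (-K ^ 2 * G) - 1 =
      -(K ^ 4 * A ^ 4) + β * (1 + K ^ 2 * A ^ 2) + α * (1 - K ^ 2 * A ^ 2) + α * β := by
    have e1 : Fp k p h = 1 + K ^ 2 * A ^ 2 + α := by rw [hα]; ring
    have e2 : Real.exp (-K ^ 2 * G) = 1 - K ^ 2 * A ^ 2 + β := by rw [hβ]; ring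
    rw [e1, e2]
    ring
  rw [e]
  have hr31 : r ^ 3 ≤ 1 := pow_le_one₀ hr0.le (by linarith)
  have hA21 : A ^ 2 ≤ 1 := by nlinarith
  have t1 : |-(K ^ 4 * A ^ 4)| ≤ K ^ 4 * r ^ 3 := by
    rw [abs_neg, abs_of_nonneg (by positivity)]
    have : A ^ 4 ≤ r ^ 4 := by
      have : A ^ 4 = (A ^ 2) ^ 2 := by ring
      rw [this]
      calc (A ^ 2) ^ 2 ≤ (r ^ 2) ^ 2 := by gcongr
        _ = r ^ 4 := by ring
    gcongr
    exact this.trans hr43
  have t2 : |β * (1 + K ^ 2 * A ^ 2)| ≤ C₂ * (1 + K ^ 2) * r ^ 3 := by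
    rw [abs_mul, abs_of_nonneg (by positivity : 0 ≤ 1 + K ^ 2 * A ^ 2)]
    calc |β| * (1 + K ^ 2 * A ^ 2) ≤ (C₂ * r ^ 3) * (1 + K ^ 2 * 1) := by gcongr
      _ = _ := by ring
  have t3 : |α * (1 - K ^ 2 * A ^ 2)| ≤ C₁ * (1 + K ^ 2) * r ^ 3 := by
    rw [abs_mul]
    have : |1 - K ^ 2 * A ^ 2| ≤ 1 + K ^ 2 := by
      have h1 : 0 ≤ K ^ 2 * A ^ 2 := by positivity
      have h2 : K ^ 2 * A ^ 2 ≤ K ^ 2 * 1 := by gcongr
      rw [abs_le]
      constructor <;> nlinarith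
    calc |α| * |1 - K ^ 2 * A ^ 2| ≤ (C₁ * r ^ 3) * (1 + K ^ 2) := by gcongr
      _ = _ := by ring
  have t4 : |α * β| ≤ C₁ * C₂ * r ^ 3 := by
    rw [abs_mul]
    calc |α| * |β| ≤ (C₁ * r ^ 3) * (C₂ * r ^ 3) := by gcongr
      _ = (C₁ * C₂ * r ^ 3) * r ^ 3 := by ring
      _ ≤ (C₁ * C₂ * r ^ 3) * 1 := by gcongr
      _ = _ := by ring
  calc _ ≤ |-(K ^ 4 * A ^ 4)| + |β * (1 + K ^ 2 * A ^ 2)| + |α * (1 - K ^ 2 * A ^ 2)| + |α * β| := by
        refine (abs_add_le _ _).trans ?_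
        gcongr
        refine (abs_add_le _ _).trans ?_
        gcongr
        exact abs_add_le _ _
    _ ≤ K ^ 4 * r ^ 3 + C₂ * (1 + K ^ 2) * r ^ 3 + C₁ * (1 + K ^ 2) * r ^ 3 + C₁ * C₂ * r ^ 3 := by
        gcongr
    _ = _ := by ring

end

end Pool.Agent.Y784.GM
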